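import Mathlib
import Pool.Agent.H5.SemiL

set_option autoImplicit false

namespace Pool.Agent.Results.MP_cb28d9_gt.No

open Set

/-- `Y`, with its natural order and its topology, is `s`-complete: every nonempty subsemilattice
`S` has an infimum lying in the closure of `↑S`, and every nonempty chain `C` has a supremum
lying in the closure of `↓C`. -/
def SComplete (Y : Type) [TopologicalSpace Y] [SemilatticeInf Y] : Prop :=
  (∀ S : Set Y, S.Nonempty → (∀ x ∈ S, ∀ y ∈ S, x ⊓ y ∈ S) →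
    ∃ m, IsGLB S m ∧ m ∈ closure {z | ∃ s ∈ S, s ≤ z}) ∧
  ∀ C : Set Y, C.Nonempty → IsChain (· ≤ ·) C →
    ∃ m, IsLUB C m ∧ m ∈ closure {z | ∃ c ∈ C, z ≤ c}

/-- a chain is closed under the operation -/
theorem inf_mem {X : Type} [SemilatticeInf X] {M : Set X} (hM : IsChain (· ≤ ·) M) {x y : X}
    (hx : x ∈ M) (hy : y ∈ M) : x ⊓ y ∈ M := by
  rcases hM.total hx hy with h | h
  · rwa [inf_eq_left.2 h]
  · rwa [inf_eq_right.2 h]

/-- a chain `M` as a semilattice under the restricted operation -/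
abbrev chainSemilattice {X : Type} [SemilatticeInf X] {M : Set X} (hM : IsChain (· ≤ ·) M) :
    SemilatticeInf M :=
  Subtype.semilatticeInf fun _ _ hx hy => inf_mem hM hx hy

open Pool.Agent.H5.SemiL in
theorem result : ∃ (X : Type) (_ : TopologicalSpace X) (_ : SemilatticeInf X),
    T2Space X ∧ ContinuousInf X ∧
    (∀ (M : Set X) (hM : IsMaxChain (· ≤ ·) M), @SComplete M _ (chainSemilattice hM.1)) ∧
    ¬ SComplete X := by
  refine ⟨X, inferInstance, inferInstance, t2, cont, fun M hM => ⟨fun S hne _ => ?_,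
    fun C hne hC => ?_⟩, fun h => ?_⟩
  · obtain ⟨m, hm, h1, h2, h3⟩ := infimum hM (S := Subtype.val '' S)
      (Subtype.coe_image_subset _ _) (hne.image _)
    refine ⟨⟨m, hm⟩, ⟨fun s hs => h1 _ ⟨s, hs, rfl⟩, fun l hl => h2 _ l.2 ?_⟩, ?_⟩
    · rintro _ ⟨s, hs, rfl⟩
      exact hl hs
    · rw [closure_subtype]
      refine closure_mono ?_ h3
      rintro l ⟨hl, _, ⟨s, hs, rfl⟩, h⟩
      exact ⟨⟨l, hl⟩, ⟨s, hs, h⟩, rfl⟩
  · obtain ⟨_, ⟨m, hm, rfl⟩, h⟩ := greatest (hM.1.mono (Subtype.coe_image_subset _ C))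
      (hne.image _)
    exact ⟨m, ⟨fun c hc => h _ ⟨c, hc, rfl⟩, fun l hl => hl hm⟩, subset_closure ⟨m, hm, le_rfl⟩⟩
  · obtain ⟨m, h1, h2⟩ := h.1 (range X.fin) ⟨_, ∅, rfl⟩ sub
    exact bad h1.1 h2

end Pool.Agent.Results.MP_cb28d9_gt.No
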